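import Pool.Agent.Helper84.Kos.Goals2

set_option autoImplicit false

/-!
# Two packets for `StmtG6`
-/

namespace Pool.Agent.Helper84.Kos

/-- Hölder's theorem: Archimedean totally (two-sided) ordered groups, given by the set `P` of
positive elements, are commutative. -/
def StmtHol : Prop :=
  ∀ (Q : Type) [Group Q] (P : Set Q), (1 : Q) ∉ P → (∀ x, x ∈ P ∨ x = 1 ∨ x⁻¹ ∈ P) →
    (∀ x ∈ P, ∀ y ∈ P, x * y ∈ P) → (∀ x ∈ P, ∀ g, g * x * g⁻¹ ∈ P) →
    (∀ x ∈ P, ∀ y ∈ P, ∃ n : ℕ, x ^ n * y⁻¹ ∈ P) → ∀ x y : Q, x * y = y * x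

/-- Nontrivial finitely generated torsion free commutative groups map onto `ℤ`. -/
def StmtAb : Prop :=
  ∀ (Q : Type) [Group Q], (∀ x y : Q, x * y = y * x) → Group.FG Q →
    (∀ (x : Q) (n : ℕ), n ≠ 0 → x ^ n = 1 → x = 1) → Nontrivial Q →
    ∃ f : Q →* Multiplicative ℤ, Function.Surjective f

end Pool.Agent.Helper84.Kos
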