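import Pool.Agent.Helper84.Kos.Goals

set_option autoImplicit false

/-!
# From Kostrikin's theorem to right-orderable Engel groups: exact statements of the packets
-/

namespace Pool.Agent.Helper84.Kos

open LieAlgebra

/-- The `k`-Engel identity, exactly as in `S01099`. -/
def EngelG (k : ℕ) (G : Type) [Group G] : Prop :=
  ∀ x y : G, (fun z : G => z⁻¹ * y⁻¹ * z * y)^[k] x = 1

/-- The conclusion of `StmtUniform` for given `k` and `c`. -/
def Bound (k c : ℕ) : Prop :=
  ∀ (L : Type) [LieRing L] [LieAlgebra ℚ L],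
    (∀ x : L, ad ℚ L x ^ k = 0) → ∀ a b : L, LieSubalgebra.lieSpan ℚ L {a, b} = ⊤ →
    LieModule.lowerCentralSeries ℚ L L c = ⊥

/-- Polynomial functions of degree less than `d` (right differences). -/
def IsPol {G : Type} [Group G] : ℕ → (G → ℚ) → Prop
  | 0, f => ∀ x, f x = 0
  | d + 1, f => ∀ g, IsPol d (fun x => f (x * g) - f x)

/-- GV: a polynomial with values in a `ℚ`-module that lies in a submodule at all natural
numbers has all its coefficients in the submodule. -/
def StmtGV : Prop :=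
  ∀ (V : Type) [AddCommGroup V] [Module ℚ V] (S : Submodule ℚ V) (N : ℕ) (v : ℕ → V),
    (∀ m : ℕ, (∑ i ∈ Finset.range N, (m : ℚ) ^ i • v i) ∈ S) → ∀ i < N, v i ∈ S

/-- GL: logarithms of unipotent elements. -/
def StmtGL : Prop :=
  ∀ (R : Type) [Ring R] [Algebra ℚ R] (u : R), IsNilpotent u →
    ∃ l : R, IsNilpotent l ∧ IsNilpotent.exp l = 1 + u

/-- The logarithms of the elements of the image of `φ`. -/
def LogSet {G : Type} [Group G] {R : Type} [Ring R] [Algebra ℚ R] (φ : G →* R) : Set R :=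
  {l | IsNilpotent l ∧ ∃ g, IsNilpotent.exp l = φ g}

/-- G1a: the span of the logarithms is closed under the commutator. -/
def StmtG1a : Prop :=
  ∀ (G : Type) [Group G] (R : Type) [Ring R] [Algebra ℚ R] (φ : G →* R),
    ∀ x ∈ Submodule.span ℚ (LogSet φ), ∀ y ∈ Submodule.span ℚ (LogSet φ),
      x * y - y * x ∈ Submodule.span ℚ (LogSet φ)

/-- G1b: the span of the logarithms satisfies the `k`-Engel identity. -/
def StmtG1b : Prop :=
  ∀ (k : ℕ), 1 ≤ k → ∀ (G : Type) [Group G], EngelG k G →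
    ∀ (R : Type) [Ring R] [Algebra ℚ R] (φ : G →* R),
    ∀ x ∈ Submodule.span ℚ (LogSet φ), ∀ y ∈ Submodule.span ℚ (LogSet φ),
      (fun z : R => z * y - y * z)^[k] x = 0

/-- G1c: conjugation by `exp l` on a Lie subalgebra containing `l`. -/
def StmtG1c : Prop :=
  ∀ (R : Type) [Ring R] [Algebra ℚ R] (l : R), IsNilpotent l → ∀ W W' : Submodule ℚ R, W' ≤ W →
    (∀ w ∈ W, l * w - w * l ∈ W') →
    ∀ w ∈ W, IsNilpotent.exp (-l) * w * IsNilpotent.exp l - w ∈ W'

/-- G1: in a representation of a 2-generator `k`-Engel group in which the generators are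
unipotent, the term number `c` of the lower central series acts trivially. -/
def StmtG1 : Prop :=
  ∀ (k c : ℕ), 1 ≤ k → Bound k c → ∀ (G : Type) [Group G], EngelG k G → ∀ a b : G,
    Subgroup.closure {a, b} = ⊤ → ∀ (R : Type) [Ring R] [Algebra ℚ R] (φ : G →* R),
    IsNilpotent (φ a - 1) → IsNilpotent (φ b - 1) →
    ∀ g ∈ (⊤ : Subgroup G).lowerCentralSeries c, φ g = 1

/-- G2: the lower central series acts trivially on polynomial functions. -/
def StmtG2 : Prop :=
  ∀ (k c : ℕ), 1 ≤ k → Bound k c → ∀ (G : Type) [Group G], EngelG k G → ∀ a b : G,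
    Subgroup.closure {a, b} = ⊤ → ∀ (d : ℕ) (f : G → ℚ), IsPol d f →
    ∀ g ∈ (⊤ : Subgroup G).lowerCentralSeries c, ∀ x, f (x * g) = f x

/-- G3: extension of polynomial functions from the kernel of a homomorphism onto `ℤ`. -/
def StmtG3 : Prop :=
  ∀ (k : ℕ) (G : Type) [Group G], EngelG k G → ∀ (f : G →* Multiplicative ℤ),
    Function.Surjective f → ∀ (d : ℕ) (u : f.ker → ℚ), IsPol d u →
    ∃ (D : ℕ) (F : G → ℚ), IsPol D F ∧ ∀ n : f.ker, F n = u n

/-- G4: restrainedness. -/
def StmtG4 : Prop :=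
  ∀ (k : ℕ) (G : Type) [Group G], EngelG k G → Group.FG G →
    ∀ (f : G →* Multiplicative ℤ), Function.Surjective f → Group.FG f.ker

/-- G5: no infinite descending chain with infinite indices in a finitely generated nilpotent
group. -/
def StmtG5 : Prop :=
  ∀ (G : Type) [Group G] (c : ℕ), Group.FG G → (⊤ : Subgroup G).lowerCentralSeries c = ⊥ →
    ∀ S : ℕ → Subgroup G, Antitone S → ∃ m, (S (m + 1)).relIndex (S m) ≠ 0

/-- A right order. -/
def RightOrd (G : Type) [Group G] : Prop :=
  ∃ r : G → G → Prop,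
    (∀ a, ¬ r a a) ∧
    (∀ a b c, r a b → r b c → r a c) ∧
    (∀ a b, r a b ∨ a = b ∨ r b a) ∧
    (∀ a b c, r a b → r (a * c) (b * c))

/-- G6: right-orderable finitely generated nontrivial Engel groups map onto `ℤ`. -/
def StmtG6 : Prop :=
  ∀ (k : ℕ) (G : Type) [Group G], EngelG k G → RightOrd G → Group.FG G → Nontrivial G →
    ∃ f : G →* Multiplicative ℤ, Function.Surjective f

/-- G7: assembly. -/
def StmtG7 : Prop :=
  ∀ (k c : ℕ), 1 ≤ k → Bound k c → ∀ (G : Type) [Group G], EngelG k G → RightOrd G → ∀ a b : G,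
    Subgroup.closure {a, b} = ⊤ → (⊤ : Subgroup G).lowerCentralSeries c = ⊥

/-- G8: nilpotent groups contain no free semigroup of rank two. -/
def StmtG8 : Prop :=
  ∀ (G : Type) [Group G] (c : ℕ), (⊤ : Subgroup G).lowerCentralSeries c = ⊥ →
    ∀ f : Bool → G, ¬ Function.Injective (FreeSemigroup.lift f)

/-- The statement of `S01099`. -/
def StmtS01099 : Prop :=
  ∀ (k : ℕ) (G : Type) [Group G], EngelG k G → RightOrd G →
      ∀ f : Bool → G, ¬ Function.Injective (FreeSemigroup.lift f)

end Pool.Agent.Helper84.Kos
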