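import Pool.Agent.Helper84.Kos.Goals3
import Pool.Agent.Helper19.Engel.Conrad

set_option autoImplicit false

/-!
# G6: right-orderable finitely generated nontrivial Engel groups map onto `ℤ`
-/

namespace Pool.Agent.Helper84.Kos

open Pool.Agent.Helper19.Engel

section dyn

variable {G Ω : Type} [Group G] [CompleteLinearOrder Ω] [MulAction G Ω]

/-- `g` has a fixed point in the open interval `(P, B)`. -/
def FixI (P B : Ω) (g : G) : Prop := ∃ z, P < z ∧ z < B ∧ g • z = z

/-- `g` moves all points of the interval up. -/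
def UpI (P B : Ω) (g : G) : Prop := ∀ z, P < z → z < B → z < g • z

variable (hm : Mono G Ω) {k : ℕ} (hE : ∀ x y : G, (eng y)^[k] x = 1) {y0 : G} {P B : Ω}
  (h0 : IsComp y0 P B) (hP : ∀ g : G, g • P = P) (hB : ∀ g : G, g • B = B)

include hm hP in
theorem mem_left {g : G} {z : Ω} (hz : P < z) : P < g • z := by
  have := (smul_lt_iff hm g _ _).2 hz
  rwa [hP] at this

include hm hB in
theorem mem_right {g : G} {z : Ω} (hz : z < B) : g • z < B := by
  have := (smul_lt_iff hm g _ _).2 hz
  rwa [hB] at this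

include hP hB in
theorem isComp_of_not_fix {g : G} (hg : ¬ FixI P B g) (hlt : P < B) : IsComp g P B where
  lt := hlt
  left := hP g
  right := hB g
  moves := fun z h1 h2 h3 => hg ⟨z, h1, h2, h3⟩

include hm hE h0 hP hB in
theorem comp_inside {g : G} (hg : FixI P B g) {p b z : Ω} (hc : IsComp g p b) (h1 : p < z)
    (h2 : z < b) (hz1 : P < z) (hz2 : z < B) : P ≤ p ∧ b < B := by
  have hPp : P ≤ p := by
    by_contra hlt
    exact hc.moves P (not_le.1 hlt) (hz1.trans h2) (hP g)
  have hbB : b ≤ B := by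
    by_contra hlt
    exact hc.moves B (h1.trans hz2) (not_le.1 hlt) (hB g)
  refine ⟨hPp, lt_of_le_of_ne hbB ?_⟩
  intro hbB'
  have h3 : y0 • b = b := by rw [hbB']; exact hB y0
  have h4 := (stab_iff hm hE hc y0).2 h3
  have h5 : p = P := by
    by_contra hne
    exact h0.moves p (lt_of_le_of_ne hPp (Ne.symm hne)) (h1.trans hz2) h4
  obtain ⟨w, hw1, hw2, hw3⟩ := hg
  exact hc.moves w (by rw [h5]; exact hw1) (by rw [hbB']; exact hw2) hw3

include hm hE h0 hP hB in
theorem fix_mul_aux {g h : G} (hg : FixI P B g) (hh : FixI P B h) (hup : UpI P B (g * h)) :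
    False := by
  obtain ⟨κ, hκ1, hκ2, hκ3⟩ := hh
  have h1 : κ < g • κ := by
    have := hup κ hκ1 hκ2
    rwa [mul_smul, hκ3] at this
  obtain ⟨p, b, hc, hp, hb⟩ := exists_comp hm h1.ne'
  obtain ⟨hPp, hbB⟩ := comp_inside hm hE h0 hP hB hg hc hp hb hκ1 hκ2
  have hPb : P < b := hκ1.trans hb
  have h2 : h⁻¹ • b < b := by
    have := hup (h⁻¹ • b) (mem_left hm hP hPb) (mem_right hm hB hbB)
    rwa [mul_smul, smul_inv_smul, hc.right] at this
  have h3 : h • b ≠ b := by
    intro h4
    rw [inv_smul_eq_iff.2 h4.symm] at h2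
    exact lt_irrefl _ h2
  obtain ⟨c, d, hcd, hc1, hd1⟩ := exists_comp hm h3
  have hκc : κ ≤ c := by
    by_contra hlt
    exact hcd.moves κ (not_le.1 hlt) (hb.trans hd1) hκ3
  exact no_cross hm hE hc hcd (hp.trans_le hκc) hc1 hd1

theorem FixI.inv {g : G} (hg : FixI P B g) : FixI P B g⁻¹ := by
  obtain ⟨z, h1, h2, h3⟩ := hg
  exact ⟨z, h1, h2, by rw [inv_smul_eq_iff, h3]⟩

include hm in
theorem up_inv {g : G} (hg : ∀ z, P < z → z < B → g • z < z) (hP : ∀ g : G, g • P = P)
    (hB : ∀ g : G, g • B = B) : UpI P B g⁻¹ := by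
  intro z h1 h2
  have := hg (g⁻¹ • z) (mem_left hm hP h1) (mem_right hm hB h2)
  rwa [smul_inv_smul] at this

include hm hE h0 hP hB in
theorem fix_mul {g h : G} (hg : FixI P B g) (hh : FixI P B h) : FixI P B (g * h) := by
  by_contra hcon
  have hc := isComp_of_not_fix hP hB hcon h0.lt
  rcases direction hm hc with hd | hd
  · exact fix_mul_aux hm hE h0 hP hB hg hh hd
  · have h1 := up_inv hm hd hP hB
    rw [mul_inv_rev] at h1
    exact fix_mul_aux hm hE h0 hP hB hh.inv hg.inv h1

/-- The normal subgroup of elements with a fixed point. -/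
def fixSub (hne : ∃ z, P < z ∧ z < B) : Subgroup G where
  carrier := {g | FixI P B g}
  mul_mem' := fun hg hh => fix_mul hm hE h0 hP hB hg hh
  one_mem' := by
    obtain ⟨z, h1, h2⟩ := hne
    exact ⟨z, h1, h2, one_smul _ _⟩
  inv_mem' := fun hg => FixI.inv hg

include hm hE h0 hP hB in
theorem exists_surj (hHol : StmtHol) (hAb : StmtAb) (hne : ∃ z, P < z ∧ z < B)
    (hfg : Group.FG G) : ∃ f : G →* Multiplicative ℤ, Function.Surjective f := by
  set N : Subgroup G := fixSub hm hE h0 hP hB hne with hN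
  have hmemN : ∀ g, g ∈ N ↔ FixI P B g := fun g => Iff.rfl
  have hnorm : N.Normal := by
    constructor
    intro g hg x
    rw [hmemN] at hg ⊢
    obtain ⟨z, h1, h2, h3⟩ := hg
    refine ⟨x • z, mem_left hm hP h1, mem_right hm hB h2, ?_⟩
    rw [mul_smul, inv_smul_smul, mul_smul, h3]
  have hupN : ∀ g, UpI P B g → g ∉ N := by
    intro g hg hgN
    obtain ⟨z, h1, h2, h3⟩ := hgN
    have := hg z h1 h2
    rw [h3] at this
    exact lt_irrefl _ this
  have htri : ∀ g : G, g ∉ N → UpI P B g ∨ UpI P B g⁻¹ := by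
    intro g hg
    have hc := isComp_of_not_fix hP hB (g := g) hg h0.lt
    rcases direction hm hc with hd | hd
    · exact Or.inl hd
    · exact Or.inr (up_inv hm hd hP hB)
  let PQ : Set (G ⧸ N) := {q | ∃ g : G, UpI P B g ∧ (g : G ⧸ N) = q}
  have hmulup : ∀ g h : G, UpI P B g → UpI P B h → UpI P B (g * h) := by
    intro g h hg hh z h1 h2
    rw [mul_smul]
    exact (hh z h1 h2).trans (hg _ (mem_left hm hP h1) (mem_right hm hB h2))
  have hpowup : ∀ g : G, UpI P B g → ∀ n : ℕ, UpI P B (g ^ (n + 1)) := by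
    intro g hg n
    induction n with
    | zero => simpa using hg
    | succ n ih =>
      rw [pow_succ]
      exact hmulup _ _ ih hg
  have hone : (1 : G ⧸ N) ∉ PQ := by
    rintro ⟨g, hg, hg1⟩
    exact hupN g hg ((QuotientGroup.eq_one_iff g).1 hg1)
  have hcomm := hHol (G ⧸ N) PQ hone (by
      intro q
      induction q using QuotientGroup.induction_on with
      | H g =>
      by_cases hg : g ∈ N
      · right; left
        exact (QuotientGroup.eq_one_iff g).2 hg
      · rcases htri g hg with h | h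
        · exact Or.inl ⟨g, h, rfl⟩
        · exact Or.inr (Or.inr ⟨g⁻¹, h, rfl⟩)) (by
      rintro _ ⟨g, hg, rfl⟩ _ ⟨h, hh, rfl⟩
      exact ⟨g * h, hmulup g h hg hh, rfl⟩) (by
      rintro _ ⟨g, hg, rfl⟩ q
      induction q using QuotientGroup.induction_on with
      | H x =>
      refine ⟨x * g * x⁻¹, ?_, rfl⟩
      intro z h1 h2
      have h3 := hg (x⁻¹ • z) (mem_left hm hP h1) (mem_right hm hB h2)
      have h4 := (smul_lt_iff hm x _ _).2 h3
      rwa [smul_inv_smul, ← mul_smul, ← mul_smul] at h4) (by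
      rintro _ ⟨g, hg, rfl⟩ _ ⟨h, hh, rfl⟩
      obtain ⟨z, hz1, hz2⟩ := hne
      have hgc : IsComp g P B := isComp_of_not_fix hP hB (hupN g hg) h0.lt
      obtain ⟨n, hn⟩ := tends_right hm hgc hz1 hz2 (hg z hz1 hz2)
        (mem_right hm hB (g := h) hz2)
      by_cases hf : g ^ n * h⁻¹ ∈ N
      · refine ⟨n + 1, g, hg, ?_⟩
        have h1 : ((g ^ n * h⁻¹ : G) : G ⧸ N) = 1 := (QuotientGroup.eq_one_iff _).2 hf
        rw [QuotientGroup.mk_mul, QuotientGroup.mk_pow, QuotientGroup.mk_inv] at h1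
        rw [pow_succ', mul_assoc, h1, mul_one]
      · refine ⟨n, g ^ n * h⁻¹, ?_, by simp⟩
        have hc := isComp_of_not_fix hP hB (g := g ^ n * h⁻¹) hf h0.lt
        rcases direction hm hc with hd | hd
        · exact hd
        · exfalso
          have h1 := hd (h • z) (mem_left hm hP hz1) (mem_right hm hB hz2)
          rw [mul_smul, inv_smul_smul] at h1
          exact lt_irrefl _ (h1.trans hn))
  have hfgQ : Group.FG (G ⧸ N) := QuotientGroup.fg N
  have htors : ∀ (x : G ⧸ N) (n : ℕ), n ≠ 0 → x ^ n = 1 → x = 1 := by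
    intro q n hn hq
    induction q using QuotientGroup.induction_on with
    | H g =>
    by_contra hg1
    have hg : g ∉ N := fun h => hg1 ((QuotientGroup.eq_one_iff g).2 h)
    obtain ⟨m, rfl⟩ := Nat.exists_eq_succ_of_ne_zero hn
    rw [← QuotientGroup.mk_pow, QuotientGroup.eq_one_iff] at hq
    rcases htri g hg with h | h
    · exact hupN _ (hpowup g h m) hq
    · apply hupN _ (hpowup _ h m)
      rw [inv_pow]
      exact N.inv_mem hq
  have hntr : Nontrivial (G ⧸ N) := by
    refine ⟨⟨(y0 : G ⧸ N), 1, ?_⟩⟩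
    intro h
    obtain ⟨z, h1, h2, h3⟩ := (QuotientGroup.eq_one_iff y0).1 h
    exact h0.moves z h1 h2 h3
  obtain ⟨f, hf⟩ := hAb (G ⧸ N) hcomm hfgQ htors hntr
  exact ⟨f.comp (QuotientGroup.mk' N), hf.comp (QuotientGroup.mk'_surjective N)⟩

end dyn

section maxcomp

variable {G Ω : Type} [Group G] [CompleteLinearOrder Ω] [MulAction G Ω]

theorem exists_max (hm : Mono G Ω) {k : ℕ} (hE : ∀ x y : G, (eng y)^[k] x = 1)
    {ω : Ω} (hω : ∀ g : G, g • ω = ω → g = 1) (hfg : Group.FG G) (hnt : Nontrivial G) :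
    ∃ (y0 : G) (P B : Ω), IsComp y0 P B ∧ (∀ g : G, g • P = P) ∧ (∀ g : G, g • B = B) ∧
      P < ω ∧ ω < B := by
  obtain ⟨S, hS, hSf⟩ := Group.fg_iff.1 hfg
  have hcomp : ∀ g : G, ∃ c : Ω × Ω, g ≠ 1 → IsComp g c.1 c.2 ∧ c.1 < ω ∧ ω < c.2 := by
    intro g
    by_cases hg : g = 1
    · exact ⟨(ω, ω), fun h => absurd hg h⟩
    · obtain ⟨p, b, h1, h2, h3⟩ := exists_comp hm (fun h => hg (hω g h))
      exact ⟨(p, b), fun _ => ⟨h1, h2, h3⟩⟩
  choose c hc using hcomp
  have hne : ({g ∈ S | g ≠ 1} : Set G).Nonempty := by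
    by_contra hcon
    rw [Set.not_nonempty_iff_eq_empty] at hcon
    have h1 : ∀ g ∈ S, g = 1 := by
      intro g hg
      by_contra hg1
      have : g ∈ ({g ∈ S | g ≠ 1} : Set G) := ⟨hg, hg1⟩
      rw [hcon] at this
      exact this
    have h2 : Subgroup.closure S = ⊥ := by
      rw [eq_bot_iff, Subgroup.closure_le]
      intro g hg
      exact h1 g hg
    rw [hS] at h2
    obtain ⟨a, b, hab⟩ := hnt
    apply hab
    have ha : a ∈ (⊥ : Subgroup G) := h2 ▸ Subgroup.mem_top a
    have hb : b ∈ (⊥ : Subgroup G) := h2 ▸ Subgroup.mem_top b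
    rw [Subgroup.mem_bot] at ha hb
    rw [ha, hb]
  obtain ⟨y0, ⟨hy0S, hy01⟩, hmin⟩ := Set.exists_min_image {g ∈ S | g ≠ 1}
    (fun g => (c g).1) (hSf.subset (fun g hg => hg.1)) hne
  obtain ⟨h0, hPω, hωB⟩ := hc y0 hy01
  set P := (c y0).1
  set B := (c y0).2
  have hSP : ∀ s ∈ S, s • P = P := by
    intro s hs
    by_cases hs1 : s = 1
    · rw [hs1, one_smul]
    obtain ⟨hsc, hsp, hsb⟩ := hc s hs1
    have hPp : P ≤ (c s).1 := hmin s ⟨hs, hs1⟩
    by_contra hne'
    obtain ⟨c1, c2, hcc, h1, h2⟩ := exists_comp hm hne'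
    have h3 : c2 ≤ (c s).1 := by
      by_contra hlt
      exact hcc.moves (c s).1 (h1.trans_le hPp) (not_le.1 hlt) hsc.left
    exact no_cross hm hE hcc h0 h1 h2 ((h3.trans_lt hsp).trans hωB)
  have hP : ∀ g : G, g • P = P := by
    intro g
    have hg : g ∈ Subgroup.closure S := by rw [hS]; exact Subgroup.mem_top g
    induction hg using Subgroup.closure_induction with
    | mem x hx => exact hSP x hx
    | one => exact one_smul _ _
    | mul x y _ _ hx hy => rw [mul_smul, hy, hx]
    | inv x _ hx => rw [inv_smul_eq_iff, hx]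
  exact ⟨y0, P, B, h0, hP, fun g => (stab_iff hm hE h0 g).1 (hP g), hPω, hωB⟩

end maxcomp

theorem surj_linear (hHol : StmtHol) (hAb : StmtAb) {G : Type} [Group G] [LinearOrder G] {k : ℕ}
    (hE : ∀ x y : G, (eng y)^[k] x = 1) (hr : ∀ a b c : G, a ≤ b → a * c ≤ b * c)
    (hfg : Group.FG G) (hnt : Nontrivial G) :
    ∃ f : G →* Multiplicative ℤ, Function.Surjective f := by
  let _ := lowerAction hr
  have hm : Mono G (LowerSet G) := by
    intro g S S' hSS' x hx
    exact hSS' hx
  have hIic : ∀ g z : G, g • LowerSet.Iic z = LowerSet.Iic (z * g⁻¹) := by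
    intro g z
    ext x
    show x * g ∈ LowerSet.Iic z ↔ x ∈ LowerSet.Iic (z * g⁻¹)
    rw [LowerSet.mem_Iic_iff, LowerSet.mem_Iic_iff]
    constructor
    · intro h
      have := hr _ _ g⁻¹ h
      simpa using this
    · intro h
      have := hr _ _ g h
      simpa using this
  have hω : ∀ g : G, g • LowerSet.Iic (1 : G) = LowerSet.Iic 1 → g = 1 := by
    intro g hg
    rw [hIic, one_mul] at hg
    have h1 : g⁻¹ ∈ LowerSet.Iic (1 : G) := by
      rw [← hg]
      exact LowerSet.mem_Iic_iff.2 le_rfl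
    have h2 : (1 : G) ∈ LowerSet.Iic g⁻¹ := by
      rw [hg]
      exact LowerSet.mem_Iic_iff.2 le_rfl
    rw [LowerSet.mem_Iic_iff] at h1 h2
    have := le_antisymm h1 h2
    rwa [inv_eq_one] at this
  obtain ⟨y0, P, B, h0, hP, hB, h1, h2⟩ := exists_max hm hE hω hfg hnt
  exact exists_surj hm hE h0 hP hB hHol hAb ⟨_, h1, h2⟩ hfg

theorem stmtG6 (hHol : StmtHol) (hAb : StmtAb) : StmtG6 := by
  intro k G _ hE hord hfg hnt
  obtain ⟨r, hirr, htrans, htotal, hright⟩ := hord
  classical
  let _ : LinearOrder G :=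
    { le := fun a b => a = b ∨ r a b
      lt := r
      le_refl := fun a => Or.inl rfl
      le_trans := by
        intro a b c hab hbc
        rcases hab with rfl | hab
        · exact hbc
        · rcases hbc with rfl | hbc
          · exact Or.inr hab
          · exact Or.inr (htrans _ _ _ hab hbc)
      lt_iff_le_not_ge := by
        intro a b
        constructor
        · intro h
          refine ⟨Or.inr h, ?_⟩
          rintro (rfl | h')
          · exact hirr _ h
          · exact hirr _ (htrans _ _ _ h h')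
        · rintro ⟨rfl | h, h2⟩
          · exact absurd (Or.inl rfl) h2
          · exact h
      le_antisymm := by
        intro a b hab hba
        rcases hab with rfl | hab
        · rfl
        · rcases hba with rfl | hba
          · rfl
          · exact absurd (htrans _ _ _ hab hba) (hirr _)
      le_total := by
        intro a b
        rcases htotal a b with h | h | h
        · exact Or.inl (Or.inr h)
        · exact Or.inl (Or.inl h)
        · exact Or.inr (Or.inr h)
      toDecidableLE := Classical.decRel _ }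
  have hr : ∀ a b c : G, a ≤ b → a * c ≤ b * c := by
    intro a b c hab
    rcases hab with rfl | hab
    · exact le_rfl
    · exact Or.inr (hright _ _ c hab)
  exact surj_linear hHol hAb (k := k) (fun x y => hE x y) hr hfg hnt

end Pool.Agent.Helper84.Kos
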