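import Pool.Agent.Helper84.Kos.Lie
import Pool.Agent.Helper84.Kos.LI
import Pool.Agent.Helper89.KosGV
import Pool.Agent.Helper27.Kos.GL
import Pool.Agent.Helper64.Kos.G1a
import Pool.Agent.Helper64.Kos.G4
import Pool.Agent.Helper54.Kos.G1b
import Pool.Agent.Helper22.Kos.G1c
import Pool.Agent.Helper22.Kos.Ab
import Pool.Agent.Helper49.Kos.G1
import Pool.Agent.Helper28.Kos.G2
import Pool.Agent.Helper75.Kos.G3
import Pool.Agent.Helper36.Kos.G5
import Pool.Agent.Helper96.Kos.G7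
import Pool.Agent.Helper88.Kos.G8
import Pool.Agent.Helper88.Kos.Hol

set_option autoImplicit false

/-!
# Right-orderable `k`-Engel groups contain no free subsemigroup of rank two
-/

namespace Pool.Agent.Helper84.Kos

theorem g1 : StmtG1 :=
  Pool.Agent.Helper49.Kos.stmtG1 stmtGL
    (Pool.Agent.Helper64.Kos.stmtG1a Pool.Agent.Helper89.KosGV.stmtGV)
    (Pool.Agent.Helper54.Kos.stmtG1b Pool.Agent.Helper89.KosGV.stmtGV)
    Pool.Agent.Helper22.Kos.stmtG1c

theorem g7 : StmtG7 :=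
  Pool.Agent.Helper96.Kos.stmtG7
    (Pool.Agent.Helper28.Kos.stmtG2 g1)
    Pool.Agent.Helper75.Kos.stmtG3
    Pool.Agent.Helper64.Kos.stmtG4
    Pool.Agent.Helper36.Kos.stmtG5
    (stmtG6 Pool.Agent.Helper88.Kos.stmtHol Pool.Agent.Helper22.Kos.stmtAb)

theorem final : StmtS01099 :=
  Pool.Agent.Helper88.Kos.stmtS01099 stmtUniform g7 Pool.Agent.Helper88.Kos.stmtG8

end Pool.Agent.Helper84.Kos
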