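import Mathlib

set_option autoImplicit false

/-!
# Kostrikin's theorem in characteristic 0: exact statements of the packets

Final goal `StmtMain`: every finitely generated `k`-Engel Lie algebra over `ℚ` is finite
dimensional (hence nilpotent by Engel's theorem).  `StmtUniform` is the form used for groups.
-/

namespace Pool.Agent.Helper84.Kos

open LieAlgebra

/-- `u` is smaller than `s` at a real first difference (in particular `u` is not a prefix of `s`). -/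
def FD {A : Type*} [LT A] (u s : List A) : Prop :=
  ∃ (p : List A) (a b : A) (x y : List A), u = p ++ a :: x ∧ s = p ++ b :: y ∧ a < b

/-- Lyndon words: nonempty and smaller than each proper nonempty suffix. -/
def IsLyn {A : Type*} [LT A] (u : List A) : Prop :=
  u ≠ [] ∧ ∀ p s : List A, p ≠ [] → s ≠ [] → u = p ++ s → FD u s

/-- T1a (words): long words contain `u u` or `u z u` with `u`, `z` Lyndon. -/
def StmtT1a : Prop :=
  ∀ (A : Type) [LinearOrder A] [Finite A], ∃ n : ℕ, ∀ w : List A, n ≤ w.length →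
    ∃ u z : List A, IsLyn u ∧ IsLyn z ∧ ((u ++ u) <:+: w ∨ (u ++ z ++ u) <:+: w)

/-- T1b (algebra): if all elements of a bracket closed set `C` are sandwiches, then long
products of the operators `ad (s a)`, `s a ∈ C`, vanish. -/
def StmtT1b : Prop :=
  ∀ (L : Type) [LieRing L] [LieAlgebra ℚ L] (A : Type) [LinearOrder A] [Finite A]
    (s : A → L) (C : Set L), (∀ a, s a ∈ C) → (∀ c ∈ C, ∀ d ∈ C, ⁅c, d⁆ ∈ C) →
    (∀ c ∈ C, ad ℚ L c * ad ℚ L c = 0) →
    (∀ c ∈ C, ∀ x : L, ad ℚ L c * ad ℚ L x * ad ℚ L c = 0) →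
    ∃ n : ℕ, ∀ w : List A, n ≤ w.length → (w.map (fun a => ad ℚ L (s a))).prod = 0

/-- T1 (sandwich theorem, char 0): finitely many sandwiches generate a finite dimensional
subalgebra. -/
def StmtT1 : Prop :=
  ∀ (L : Type) [LieRing L] [LieAlgebra ℚ L] (S : Set L), S.Finite →
    (∀ c ∈ S, ad ℚ L c ^ 2 = 0) → Module.Finite ℚ (LieSubalgebra.lieSpan ℚ L S)

/-- T2 (descent). -/
def StmtT2 : Prop :=
  ∀ (L : Type) [LieRing L] [LieAlgebra ℚ L] (a x : L) (m : ℕ), 4 ≤ m → ad ℚ L a ^ m = 0 →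
    ad ℚ L ((ad ℚ L a ^ (m - 1)) x) ^ (m - 1) = 0

/-- T3 (last step): from `ad(a)^3 = 0` to a sandwich. -/
def StmtT3 : Prop :=
  ∀ (L : Type) [LieRing L] [LieAlgebra ℚ L] (k : ℕ), (∀ x : L, ad ℚ L x ^ k = 0) →
    ∀ a : L, a ≠ 0 → ad ℚ L a ^ 3 = 0 → ∃ c : L, c ≠ 0 ∧ ad ℚ L c ^ 2 = 0

/-- T23: every nonzero `k`-Engel Lie algebra contains a nonzero sandwich. -/
def StmtT23 : Prop :=
  ∀ (L : Type) [LieRing L] [LieAlgebra ℚ L] (k : ℕ), (∀ x : L, ad ℚ L x ^ k = 0) →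
    (∃ a : L, a ≠ 0) → ∃ c : L, c ≠ 0 ∧ ad ℚ L c ^ 2 = 0

/-- T4: subalgebras which are ideals of finite codimension in a finitely generated subalgebra
of a `k`-Engel Lie algebra are finitely generated. -/
def StmtT4 : Prop :=
  ∀ (L : Type) [LieRing L] [LieAlgebra ℚ L] (k : ℕ), (∀ x : L, ad ℚ L x ^ k = 0) →
    ∀ K I : LieSubalgebra ℚ L, I ≤ K → (∀ x ∈ K, ∀ y ∈ I, ⁅x, y⁆ ∈ I) →
    (∃ S : Set L, S.Finite ∧ LieSubalgebra.lieSpan ℚ L S = K) →
    (∃ F : Set L, F.Finite ∧ K.toSubmodule ≤ I.toSubmodule ⊔ Submodule.span ℚ F) →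
    ∃ S : Set L, S.Finite ∧ LieSubalgebra.lieSpan ℚ L S = I

/-- T5: the span of all sandwiches is an ideal. -/
def StmtT5 : Prop :=
  ∀ (L : Type) [LieRing L] [LieAlgebra ℚ L] (k : ℕ), (∀ x : L, ad ℚ L x ^ k = 0) →
    ∀ c : L, ad ℚ L c ^ 2 = 0 → ∀ x : L,
      ⁅x, c⁆ ∈ Submodule.span ℚ {d : L | ad ℚ L d ^ 2 = 0}

/-- T6 (Kostrikin, char 0): finitely generated `k`-Engel Lie algebras over `ℚ` are finite
dimensional. -/
def StmtMain : Prop :=
  ∀ (L : Type) [LieRing L] [LieAlgebra ℚ L] (k : ℕ), (∀ x : L, ad ℚ L x ^ k = 0) →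
    (∃ S : Set L, S.Finite ∧ LieSubalgebra.lieSpan ℚ L S = ⊤) → Module.Finite ℚ L

/-- T7: uniform bound for the class of 2-generator `k`-Engel Lie algebras over `ℚ`. -/
def StmtUniform : Prop :=
  ∀ k : ℕ, ∃ c : ℕ, ∀ (L : Type) [LieRing L] [LieAlgebra ℚ L],
    (∀ x : L, ad ℚ L x ^ k = 0) → ∀ a b : L, LieSubalgebra.lieSpan ℚ L {a, b} = ⊤ →
    LieModule.lowerCentralSeries ℚ L L c = ⊥

end Pool.Agent.Helper84.Kos
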