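import Pool.Agent.Helper84.Kos.Words
import Pool.Agent.Helper77.Kos.T1b
import Pool.Agent.Helper8.Kos.T1
import Pool.Agent.Helper8.Kos.T5
import Pool.Agent.Helper8.Kos.T7
import Pool.Agent.Helper8.Kos.T23
import Pool.Agent.Helper17.Kos.T2
import Pool.Agent.Helper79.Kos.T3
import Pool.Agent.Helper96.Kos.T4
import Pool.Agent.Helper40.Kos.Main

set_option autoImplicit false

/-!
# Kostrikin's theorem in characteristic 0

Every finitely generated `k`-Engel Lie algebra over `ℚ` is finite dimensional, and the class of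
2-generator ones is bounded in terms of `k`.
-/

namespace Pool.Agent.Helper84.Kos

theorem stmtMain : StmtMain :=
  Pool.Agent.Helper40.Kos.stmtMain
    (Pool.Agent.Helper8.Kos.stmtT1 (Pool.Agent.Helper77.Kos.stmtT1b stmtT1a))
    (Pool.Agent.Helper8.Kos.stmtT23 Pool.Agent.Helper17.Kos.stmtT2
      Pool.Agent.Helper79.Kos.stmtT3)
    Pool.Agent.Helper96.Kos.stmtT4
    Pool.Agent.Helper8.Kos.stmtT5

theorem stmtUniform : StmtUniform := Pool.Agent.Helper8.Kos.stmtUniform stmtMain

end Pool.Agent.Helper84.Kos
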