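import Pool.Agent.Helper84.Kos.Goals

set_option autoImplicit false

/-!
# T1a: the patterns `u u`, `u z u` (`u`, `z` Lyndon) are unavoidable
-/

namespace Pool.Agent.Helper84.Kos

section
variable {A : Type*} [LinearOrder A]

theorem FD.append_left {u u' s : List A} (h : FD u s) (hu : u <+: u') : FD u' s := by
  obtain ⟨p, a, b, x, y, rfl, rfl, hab⟩ := h
  obtain ⟨t, rfl⟩ := hu
  exact ⟨p, a, b, x ++ t, y, by simp, rfl, hab⟩

theorem FD.append_both {u s : List A} (h : FD u s) (t t' : List A) : FD (u ++ t) (s ++ t') := by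
  obtain ⟨p, a, b, x, y, rfl, rfl, hab⟩ := h
  exact ⟨p, a, b, x ++ t, y ++ t', by simp, by simp, hab⟩

theorem isLyn_singleton (a : A) : IsLyn [a] := by
  refine ⟨by simp, ?_⟩
  intro p s hp hs h
  exfalso
  have := congrArg List.length h
  simp only [List.length_cons, List.length_nil, List.length_append] at this
  have h1 := List.length_pos_of_ne_nil hp
  have h2 := List.length_pos_of_ne_nil hs
  omega

/-- Words containing a forbidden factor. -/
def Bad (w : List A) : Prop :=
  ∃ u z : List A, IsLyn u ∧ IsLyn z ∧ ((u ++ u) <:+: w ∨ (u ++ z ++ u) <:+: w)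

/-- Factor closed. -/
def Fac (S : Set (List A)) : Prop := ∀ w ∈ S, ∀ v, v <:+: w → v ∈ S

/-- Words of each length. -/
def Lng (S : Set (List A)) : Prop := ∀ n : ℕ, ∃ w ∈ S, w.length = n

def Cls (A : Type*) [LinearOrder A] : Set (Set (List A)) :=
  {S | Fac S ∧ Lng S ∧ ∀ w ∈ S, ¬ Bad w}

omit [LinearOrder A] in
theorem chain_avoid {c : Set (Set (List A))} (hc : IsChain (· ⊆ ·) c) (hne : c.Nonempty)
    (F : Set (List A)) (hF : F.Finite) :
    (∀ w ∈ F, ∃ S ∈ c, w ∉ S) → ∃ S ∈ c, ∀ w ∈ F, w ∉ S := by
  induction F, hF using Set.Finite.induction_on with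
  | empty =>
    intro _
    obtain ⟨S, hS⟩ := hne
    exact ⟨S, hS, by simp⟩
  | @insert a s _ _ ih =>
    intro h
    obtain ⟨S, hS, hS'⟩ := ih (fun w hw => h w (Set.mem_insert_of_mem _ hw))
    obtain ⟨T, hT, hT'⟩ := h a (Set.mem_insert _ _)
    rcases hc.total hS hT with hle | hle
    · refine ⟨S, hS, ?_⟩
      intro w hw
      rcases hw with rfl | hw
      · exact fun h' => hT' (hle h')
      · exact hS' w hw
    · refine ⟨T, hT, ?_⟩
      intro w hw
      rcases hw with rfl | hw
      · exact hT'
      · exact fun h' => hS' w hw (hle h')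

theorem exists_minimal [Finite A] {S₀ : Set (List A)} (h₀ : S₀ ∈ Cls A) :
    ∃ S, Minimal (· ∈ Cls A) S := by
  obtain ⟨m, -, hm⟩ := zorn_superset_nonempty (Cls A) (by
    intro c hc hchain hne
    refine ⟨⋂₀ c, ⟨?_, ?_, ?_⟩, fun s hs => Set.sInter_subset_of_mem hs⟩
    · intro w hw v hv S hS
      exact (hc hS).1 w (hw S hS) v hv
    · intro n
      by_contra hcon
      push Not at hcon
      obtain ⟨S, hS, hS'⟩ := chain_avoid hchain hne {w : List A | w.length = n}
        (List.finite_length_eq A n) (by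
          intro w hw
          have : w ∉ ⋂₀ c := fun h => hcon w h hw
          simp only [Set.mem_sInter, not_forall] at this
          obtain ⟨S, hS, hS'⟩ := this
          exact ⟨S, hS, hS'⟩)
      obtain ⟨w, hw, hwn⟩ := (hc hS).2.1 n
      exact hS' w hwn hw
    · intro w hw
      obtain ⟨S, hS⟩ := hne
      exact (hc hS).2.2 w (hw S hS)) S₀ h₀
  exact ⟨m, hm⟩

theorem recurrence {S : Set (List A)} (hS : Minimal (· ∈ Cls A) S) {w : List A} (hw : w ∈ S) :
    ∃ K : ℕ, ∀ x ∈ S, K ≤ x.length → w <:+: x := by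
  by_contra hcon
  push Not at hcon
  have hmem : {x | x ∈ S ∧ ¬ w <:+: x} ∈ Cls A := by
    refine ⟨?_, ?_, ?_⟩
    · rintro x ⟨hx, hx'⟩ v hv
      exact ⟨hS.1.1 x hx v hv, fun h => hx' (h.trans hv)⟩
    · intro n
      obtain ⟨x, hx, hn, hx'⟩ := hcon n
      refine ⟨x.take n, ⟨hS.1.1 x hx _ (List.take_prefix n x).isInfix, fun h => hx' (h.trans
        (List.take_prefix n x).isInfix)⟩, ?_⟩
      simp [hn]
    · rintro x ⟨hx, -⟩
      exact hS.1.2.2 x hx
  have := hS.2 hmem (fun x hx => hx.1) hw
  exact this.2 (List.infix_refl w)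

theorem extend {S : Set (List A)} (hS : Minimal (· ∈ Cls A) S) {w : List A} (hw : w ∈ S) :
    ∃ c : A, w ++ [c] ∈ S := by
  obtain ⟨K, hK⟩ := recurrence hS hw
  obtain ⟨x, hx, hxl⟩ := hS.1.2.1 (K + 1)
  have h1 : x.take K ∈ S := hS.1.1 x hx _ (List.take_prefix K x).isInfix
  obtain ⟨p, t, hpt⟩ := hK _ h1 (by simp [hxl])
  have h2 : x = p ++ w ++ (t ++ x.drop K) := by
    conv_lhs => rw [← List.take_append_drop K x, ← hpt]
    simp
  have h3 : t ++ x.drop K ≠ [] := by
    intro h
    have := congrArg List.length h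
    simp [hxl] at this
  obtain ⟨c, r, hcr⟩ := List.exists_cons_of_ne_nil h3
  refine ⟨c, hS.1.1 x hx _ ⟨p, r, ?_⟩⟩
  rw [h2, hcr]
  simp

theorem next [Finite A] {S : Set (List A)} (hS : Minimal (· ∈ Cls A) S) (w : S) :
    ∃ w' : S, ∃ c : A, w'.1 = w.1 ++ [c] ∧ ∀ d, w.1 ++ [d] ∈ S → c ≤ d := by
  obtain ⟨c, hc, hc'⟩ := Set.exists_min_image {c : A | w.1 ++ [c] ∈ S} id (Set.toFinite _)
    (extend hS w.2)
  exact ⟨⟨w.1 ++ [c], hc⟩, c, rfl, hc'⟩

end

/-- The data of a minimal word sequence. -/
theorem exists_seq {A : Type*} [LinearOrder A] [Finite A] {S : Set (List A)}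
    (hS : Minimal (· ∈ Cls A) S) :
    ∃ v : ℕ → List A, (∀ n, v n ∈ S) ∧ (∀ n, (v n).length = n) ∧
      (∀ n, ∃ c, v (n + 1) = v n ++ [c] ∧ ∀ d, v n ++ [d] ∈ S → c ≤ d) := by
  choose nx hnx using next hS
  have h0 : ([] : List A) ∈ S := by
    obtain ⟨w, hw, hwl⟩ := hS.1.2.1 0
    rwa [List.length_eq_zero_iff.1 hwl] at hw
  let v : ℕ → S := fun n => Nat.rec ⟨[], h0⟩ (fun _ w => nx w) n
  have hv0 : (v 0).1 = [] := rfl
  have hv1 : ∀ n, v (n + 1) = nx (v n) := fun n => rfl
  refine ⟨fun n => (v n).1, fun n => (v n).2, ?_, ?_⟩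
  · intro n
    induction n with
    | zero => simp [hv0]
    | succ n ih =>
      obtain ⟨c, hc, -⟩ := hnx (v n)
      simp only [hv1, hc, List.length_append, ih, List.length_cons, List.length_nil]
  · intro n
    obtain ⟨c, hc, hc'⟩ := hnx (v n)
    exact ⟨c, by simp only [hv1, hc], hc'⟩

theorem no_minimal {A : Type*} [LinearOrder A] [Finite A] {S : Set (List A)}
    (hS : Minimal (· ∈ Cls A) S) : False := by
  obtain ⟨v, hvS, hvl, hvs⟩ := exists_seq hS
  have hFac := hS.1.1
  have hBad := hS.1.2.2
  -- prefixes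
  have hpre : ∀ n k, v n <+: v (n + k) := by
    intro n k
    induction k with
    | zero => exact List.prefix_refl _
    | succ k ih =>
      obtain ⟨c, hc, -⟩ := hvs (n + k)
      rw [← Nat.add_assoc, hc]
      exact ih.trans (List.prefix_append _ _)
  have hpre' : ∀ {n m}, n ≤ m → v n <+: v m := by
    intro n m h
    obtain ⟨k, rfl⟩ := Nat.exists_eq_add_of_le h
    exact hpre n k
  -- a prefix of `v m` is a `v n`
  have heq : ∀ {m : ℕ} {p : List A}, p <+: v m → p = v p.length := by
    intro m p hp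
    have h1 : p.length ≤ m := by
      have := hp.length_le
      rwa [hvl] at this
    have h2 := hpre' h1
    exact List.IsPrefix.eq_of_length (List.prefix_of_prefix_length_le hp h2 (by rw [hvl]))
      (by rw [hvl])
  -- least words
  have hleast : ∀ n, ∀ w ∈ S, w.length = n → v n = w ∨ FD (v n) w := by
    intro n
    induction n with
    | zero =>
      intro w _ hw
      left
      rw [List.length_eq_zero_iff.1 hw, ← List.length_eq_zero_iff, hvl]
    | succ n ih =>
      intro w hwS hwl
      obtain ⟨w', d, rfl⟩ : ∃ w' d, w = w' ++ [d] := by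
        have hne : w ≠ [] := by
          intro h
          simp [h] at hwl
        exact ⟨w.dropLast, w.getLast hne, (List.dropLast_append_getLast hne).symm⟩
      have hw'l : w'.length = n := by simpa using hwl
      have hw'S : w' ∈ S := hFac _ hwS _ (List.prefix_append _ _).isInfix
      obtain ⟨c, hc, hc'⟩ := hvs n
      rcases ih w' hw'S hw'l with h | h
      · subst h
        rcases (hc' d hwS).eq_or_lt with h | h
        · left
          rw [hc, h]
        · right
          rw [hc]
          exact ⟨v n, c, d, [], [], rfl, rfl, h⟩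
      · right
        rw [hc]
        exact h.append_both _ _
  -- the bound `N0`
  obtain ⟨N0, hN01, hN0⟩ : ∃ N0 : ℕ, 1 ≤ N0 ∧ ∀ c, c :: v N0 ∈ S → ∀ M, c :: v M ∈ S := by
    have h : ∀ c : A, ∃ N : ℕ, c :: v N ∈ S → ∀ M, c :: v M ∈ S := by
      intro c
      by_cases h : ∀ M, c :: v M ∈ S
      · exact ⟨0, fun _ => h⟩
      · push Not at h
        obtain ⟨N, hN⟩ := h
        exact ⟨N, fun h' => absurd h' hN⟩
    choose N hN using h
    obtain ⟨B, hB⟩ := (Set.finite_range N).bddAbove
    refine ⟨B + 1, by omega, ?_⟩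
    intro c hc
    refine hN c (hFac _ hc _ ?_)
    have : N c ≤ B + 1 := (hB ⟨c, rfl⟩).trans (Nat.le_succ _)
    obtain ⟨t, ht⟩ := hpre' this
    exact ⟨[], t, by simp [← ht]⟩
  have hN0' : ∀ N, N0 ≤ N → ∀ c, c :: v N ∈ S → ∀ M, c :: v M ∈ S := by
    intro N hN c hc
    refine hN0 c (hFac _ hc _ ?_)
    obtain ⟨t, ht⟩ := hpre' hN
    exact ⟨[], t, by simp [← ht]⟩
  -- the main claim
  have claim : ∀ n N c, N0 ≤ N → v (n + 1 + N) ≠ v n ++ c :: v N := by
    intro n
    induction n using Nat.strong_induction_on with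
    | _ n ih =>
    intro N c hN h
    rcases Nat.eq_zero_or_pos n with rfl | hn
    · have hv0 : v 0 = [] := by rw [← List.length_eq_zero_iff, hvl]
      rw [hv0, List.nil_append] at h
      have h1 : v 1 = [c] := by
        have hh : [c] <+: v (0 + 1 + N) := by
          rw [h]
          exact ⟨v N, rfl⟩
        have := heq hh
        simpa using this.symm
      obtain ⟨t, ht⟩ := hpre' (hN01.trans hN)
      refine hBad _ (hvS (0 + 1 + N)) ⟨[c], [c], isLyn_singleton c, isLyn_singleton c, Or.inl
        ⟨[], t, ?_⟩⟩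
      rw [h, ← ht, h1]
      simp
    · have hex : ∃ m, 1 ≤ m ∧ v m <:+ v n := ⟨n, hn, List.suffix_refl _⟩
      classical
      obtain ⟨hm1, hm2⟩ := Nat.find_spec hex
      have hmin := fun j (hj : j < Nat.find hex) => Nat.find_min hex hj
      set m := Nat.find hex with hm
      have hmn : m ≤ n := by
        have := hm2.length_le
        rwa [hvl, hvl] at this
      have hlyn : IsLyn (v m) := by
        refine ⟨?_, ?_⟩
        · intro hh
          have := hvl m
          rw [hh] at this
          simp at this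
          omega
        · intro p s hp hs hps
          have hsl : s.length < m := by
            have h1 := congrArg List.length hps
            rw [hvl, List.length_append] at h1
            have := List.length_pos_of_ne_nil hp
            omega
          have hs1 : 1 ≤ s.length := List.length_pos_of_ne_nil hs
          have hsuf : s <:+ v m := ⟨p, hps.symm⟩
          have hsS : s ∈ S := hFac _ (hvS m) _ hsuf.isInfix
          rcases hleast _ s hsS rfl with h1 | h1
          · exact absurd ⟨hs1, by rw [h1]; exact hsuf.trans hm2⟩ (hmin _ hsl)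
          · exact h1.append_left (hpre' hsl.le)
      by_cases hmN : m ≤ N
      · obtain ⟨p, hp⟩ := hm2
        obtain ⟨t, ht⟩ := hpre' hmN
        refine hBad _ (hvS (n + 1 + N)) ⟨v m, [c], hlyn, isLyn_singleton c, Or.inr
          ⟨p, t, ?_⟩⟩
        rw [h, ← hp, ← ht]
        simp
      · push Not at hmN
        rcases hmn.eq_or_lt with hmn | hmn
        · -- `v n` is Lyndon
          rw [hmn] at hlyn
          have h1 : c :: v N ∈ S := by
            refine hFac _ (hvS (n + 1 + N)) _ ⟨v n, [], ?_⟩
            rw [h]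
            simp
          have h2 := hN0' N hN c h1 (n + 1)
          have h3 : v (n + 1) = v n ++ [c] := by
            have hh : v n ++ [c] <+: v (n + 1 + N) := by
              rw [h]
              exact ⟨v N, by simp⟩
            have := heq hh
            rw [this]
            simp [hvl]
          rw [h3] at h2
          exact hBad _ h2 ⟨[c], v n, isLyn_singleton c, hlyn, Or.inr ⟨[], [], by simp⟩⟩
        · obtain ⟨t, ht⟩ := hm2
          have htl : t.length = n - m := by
            have := congrArg List.length ht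
            rw [List.length_append, hvl, hvl] at this
            omega
          have ht' : t = v (n - m) := by
            rw [← htl]
            exact heq (m := n) ⟨v m, ht⟩
          obtain ⟨n', hn'⟩ : ∃ n', n - m = n' + 1 := ⟨n - m - 1, by omega⟩
          obtain ⟨c', hc', -⟩ := hvs n'
          refine ih n' (by omega) m c' (hN.trans hmN.le) ?_
          have h4 : n' + 1 + m = n := by omega
          rw [h4, ← ht, ht', hn', hc']
          simp
  -- the occurrence
  obtain ⟨K, hK⟩ := recurrence hS (hvS N0)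
  obtain ⟨x, hx⟩ := hpre 1 K
  have hxl : x.length = K := by
    have := congrArg List.length hx
    rw [List.length_append, hvl, hvl] at this
    omega
  have hxS : x ∈ S := hFac _ (hvS (1 + K)) _ ⟨v 1, [], by simp [hx]⟩
  obtain ⟨α, β, hαβ⟩ := hK x hxS hxl.ge
  have h5 : v (1 + K) = (v 1 ++ α) ++ v N0 ++ β := by
    rw [← hx, ← hαβ]
    simp
  have h6 : v 1 ++ α = v (α.length + 1) := by
    have : v 1 ++ α <+: v (1 + K) := by
      rw [h5]
      exact ⟨v N0 ++ β, by simp⟩
    rw [heq this]
    simp [hvl, Nat.add_comm]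
  obtain ⟨c, hc, -⟩ := hvs α.length
  refine claim α.length N0 c le_rfl ?_
  have h7 : v 1 ++ α ++ v N0 <+: v (1 + K) := by
    rw [h5]
    exact ⟨β, rfl⟩
  have h8 := heq h7
  rw [h6, hc] at h8
  simp only [List.length_append, hvl, List.length_cons, List.append_assoc,
    List.cons_append, List.nil_append] at h8
  have h9 : α.length + 1 + N0 = α.length + (N0 + 1) := by omega
  rw [h9, ← h8]

theorem stmtT1a : StmtT1a := by
  intro A _ _
  by_contra hcon
  push Not at hcon
  have hmem : {w : List A | ¬ Bad w} ∈ Cls A := by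
    refine ⟨?_, ?_, fun w hw => hw⟩
    · rintro w hw v hv ⟨u, z, hu, hz, h⟩
      exact hw ⟨u, z, hu, hz, h.imp (fun h => h.trans hv) (fun h => h.trans hv)⟩
    · intro n
      obtain ⟨w, hn, hw⟩ := hcon n
      refine ⟨w.take n, ?_, by simp [hn]⟩
      rintro ⟨u, z, hu, hz, h⟩
      have hv := (List.take_prefix n w).isInfix
      rcases h with h | h
      · exact (hw u z hu hz).1 (h.trans hv)
      · exact (hw u z hu hz).2 (h.trans hv)
  obtain ⟨S, hS⟩ := exists_minimal hmem
  exact no_minimal hS

end Pool.Agent.Helper84.Kos
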